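import Mathlib

set_option autoImplicit false

/-! The gap sequence and the positions of the letter `1`. -/

namespace Q223.AD

/-- the lengths of the runs of the letter `2` -/
def g (n : ℕ) : ℕ := if n % 4 = 3 then g (n / 4) else if n % 4 = 1 then 2 else 1
termination_by n
decreasing_by omega

theorem g0 (k : ℕ) : g (4 * k) = 1 := by
  rw [g, if_neg (by omega), if_neg (by omega)]
theorem g1 (k : ℕ) : g (4 * k + 1) = 2 := by
  rw [g, if_neg (by omega), if_pos (by omega)]
theorem g2 (k : ℕ) : g (4 * k + 2) = 1 := by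
  rw [g, if_neg (by omega), if_neg (by omega)]
theorem g3 (k : ℕ) : g (4 * k + 3) = g k := by
  rw [g, if_pos (by omega)]
  congr 1
  omega

theorem g_even (n : ℕ) (h : n % 2 = 0) : g n = 1 := by
  rw [g, if_neg (by omega), if_neg (by omega)]

theorem g_mem (n : ℕ) : g n = 1 ∨ g n = 2 := by
  induction n using Nat.strong_induction_on with
  | _ n ih =>
  rw [g]
  split_ifs with h1 h2
  · exact ih (n / 4) (by omega)
  · exact Or.inr rfl
  · exact Or.inl rfl

/-- the position of the `i`-th letter `1` -/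
def O : ℕ → ℕ
  | 0 => 0
  | i + 1 => O i + 1 + g i

/-- the digit discrepancy -/
def dl (n : ℕ) : ℤ :=
  if n = 0 then 0 else dl (n / 4) + (if n % 4 = 1 then -1 else if n % 4 = 2 then 1 else 0)
termination_by n
decreasing_by omega

theorem dl_zero : dl 0 = 0 := by rw [dl, if_pos rfl]

theorem dl_step (a d : ℕ) (hd : d < 4) :
    dl (4 * a + d) = dl a + (if d = 1 then -1 else if d = 2 then 1 else 0) := by
  by_cases h : 4 * a + d = 0
  · have ha : a = 0 := by omega
    have hd0 : d = 0 := by omega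
    subst ha hd0
    simp [dl_zero]
  · rw [dl, if_neg h]
    have e1 : (4 * a + d) / 4 = a := by omega
    have e2 : (4 * a + d) % 4 = d := by omega
    rw [e1, e2]

theorem O_four (k : ℕ) : O (4 * k) = O k + 7 * k := by
  induction k with
  | zero => rfl
  | succ k ih =>
    have e : 4 * (k + 1) = 4 * k + 1 + 1 + 1 + 1 := by ring
    rw [e]
    simp only [O]
    have h1 := g1 k
    have h2 := g2 k
    have h3 := g3 k
    have e1 : 4 * k + 1 + 1 = 4 * k + 2 := by ring
    have e2 : 4 * k + 1 + 1 + 1 = 4 * k + 3 := by ring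
    rw [e2, e1, h3, h2, h1, g0, ih]
    ring

theorem O_eq (i : ℕ) : 3 * (O i : ℤ) = 7 * i + dl i := by
  induction i using Nat.strong_induction_on with
  | _ i ih =>
  rcases Nat.eq_zero_or_pos i with rfl | hpos
  · simp [O, dl_zero]
  · obtain ⟨k, d, hd, rfl⟩ : ∃ k d, d < 4 ∧ i = 4 * k + d := ⟨i / 4, i % 4, by omega, by omega⟩
    have hk : k < 4 * k + d := by omega
    have h1 := ih k hk
    have h4 := O_four k
    rw [dl_step k d hd]
    have a1 : O (4 * k + 1) = O (4 * k) + 1 + 1 := by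
      show O (4 * k) + 1 + g (4 * k) = _
      rw [g0]
    have a2 : O (4 * k + 2) = O (4 * k + 1) + 1 + 2 := by
      show O (4 * k + 1) + 1 + g (4 * k + 1) = _
      rw [g1]
    have a3 : O (4 * k + 3) = O (4 * k + 2) + 1 + 1 := by
      show O (4 * k + 2) + 1 + g (4 * k + 2) = _
      rw [g2]
    interval_cases d
    · simp only [Nat.add_zero]
      rw [h4]; push_cast; norm_num; linarith
    · rw [a1, h4]; push_cast; norm_num; linarith
    · rw [a2, a1, h4]; push_cast; norm_num; linarith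
    · rw [a3, a2, a1, h4]; push_cast; norm_num; linarith

theorem dl_split (n : ℕ) : ∀ k r, r < 4 ^ n → dl (4 ^ n * k + r) = dl k + dl r := by
  induction n with
  | zero =>
    intro k r hr
    have : r = 0 := by simpa using hr
    subst this
    simp [dl_zero]
  | succ n ih =>
    intro k r hr
    obtain ⟨r', d, hd, rfl⟩ : ∃ r' d, d < 4 ∧ r = 4 * r' + d := ⟨r / 4, r % 4, by omega, by omega⟩
    have hr' : r' < 4 ^ n := by
      rw [pow_succ] at hr
      omega
    have e : 4 ^ (n + 1) * k + (4 * r' + d) = 4 * (4 ^ n * k + r') + d := by ring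
    rw [e, dl_step _ d hd, dl_step _ d hd, ih k r' hr']
    ring

theorem dl_abs (n : ℕ) : |dl n| ≤ n := by
  induction n using Nat.strong_induction_on with
  | _ n ih =>
  rcases Nat.eq_zero_or_pos n with rfl | hpos
  · simp [dl_zero]
  · obtain ⟨k, d, hd, rfl⟩ : ∃ k d, d < 4 ∧ n = 4 * k + d := ⟨n / 4, n % 4, by omega, by omega⟩
    have h1 := abs_le.mp (ih k (by omega))
    rw [dl_step k d hd, abs_le]
    have h2 : -(d : ℤ) ≤ (if d = 1 then -1 else if d = 2 then 1 else 0) ∧
        (if d = 1 then -1 else if d = 2 then 1 else 0) ≤ (d : ℤ) := by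
      split_ifs <;> constructor <;> omega
    have h3 := h2.1
    have h4 := h2.2
    push_cast
    constructor <;> linarith

theorem O_lt_succ (i : ℕ) : O i < O (i + 1) := by
  show O i < O i + 1 + g i
  omega

theorem O_strictMono : StrictMono O := strictMono_nat_of_lt_succ O_lt_succ

theorem O_succ_le (i : ℕ) : O (i + 1) ≤ O i + 3 := by
  show O i + 1 + g i ≤ O i + 3
  rcases g_mem i with h | h <;> omega

theorem le_O (i : ℕ) : i ≤ O i := O_strictMono.le_apply

/-- the sequence -/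
noncomputable def y (p : ℕ) : ℕ := open Classical in if ∃ i, O i = p then 1 else 2

theorem y_one {p : ℕ} : y p = 1 ↔ ∃ i, O i = p := by
  unfold y
  by_cases h : ∃ i, O i = p
  · rw [if_pos h]; simp [h]
  · rw [if_neg h]; simp [h]

theorem y_O (i : ℕ) : y (O i) = 1 := y_one.mpr ⟨i, rfl⟩

/-- Equal windows of the sequence give equal windows of positions. -/
theorem window (P1 P2 l J : ℕ) (hl : 3 * J + 3 ≤ l)
    (h : ∀ j < l, y (P1 + j) = y (P2 + j)) :
    ∃ i1 i2, P1 ≤ O i1 ∧ P2 ≤ O i2 ∧ O i1 ≤ P1 + 2 ∧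
      ∀ j ≤ J, O (i1 + j) + P2 = O (i2 + j) + P1 := by
  classical
  have hex : ∀ P, ∃ i, P ≤ O i := fun P => ⟨P, le_O P⟩
  have hmin : ∀ P, ∃ i, P ≤ O i ∧ O i ≤ P + 2 ∧ ∀ i', P ≤ O i' → i ≤ i' := by
    intro P
    refine ⟨Nat.find (hex P), Nat.find_spec (hex P), ?_, fun i' h => Nat.find_min' _ h⟩
    rcases Nat.eq_zero_or_pos (Nat.find (hex P)) with h0 | h0
    · rw [h0]; show 0 ≤ P + 2; omega
    · have h1 := Nat.find_min (hex P) (m := Nat.find (hex P) - 1) (by omega)
      have h2 := O_succ_le (Nat.find (hex P) - 1)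
      have h3 : Nat.find (hex P) - 1 + 1 = Nat.find (hex P) := by omega
      rw [h3] at h2
      omega
  obtain ⟨i1, a1, b1, c1⟩ := hmin P1
  obtain ⟨i2, a2, b2, c2⟩ := hmin P2
  -- bounds
  have bound : ∀ (i P : ℕ), O i ≤ P + 2 → ∀ j, O (i + j) ≤ P + 2 + 3 * j := by
    intro i P hb j
    induction j with
    | zero => exact hb
    | succ j ih =>
      have := O_succ_le (i + j)
      rw [Nat.add_assoc] at this
      omega
  refine ⟨i1, i2, a1, a2, b1, fun j => ?_⟩
  induction j with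
  | zero =>
    intro _
    simp only [Nat.add_zero]
    apply le_antisymm
    · -- `O i2 - P2` is a position of a `1` in the first window
      have h1 := h (O i2 - P2) (by omega)
      have e2 : P2 + (O i2 - P2) = O i2 := by omega
      rw [e2, y_O] at h1
      obtain ⟨i', hi'⟩ := y_one.mp h1
      have h2 := c1 i' (by omega)
      have h3 := O_strictMono.monotone h2
      omega
    · have h1 := h (O i1 - P1) (by omega)
      have e2 : P1 + (O i1 - P1) = O i1 := by omega
      rw [e2, y_O] at h1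
      obtain ⟨i', hi'⟩ := y_one.mp h1.symm
      have h2 := c2 i' (by omega)
      have h3 := O_strictMono.monotone h2
      omega
  | succ j ih =>
    intro hj
    have ih' := ih (by omega)
    have B1 := bound i1 P1 b1 (j + 1)
    have B2 := bound i2 P2 b2 (j + 1)
    have m1 := O_strictMono.monotone (Nat.le_add_right i1 (j + 1))
    have m2 := O_strictMono.monotone (Nat.le_add_right i2 (j + 1))
    have s1 := O_lt_succ (i1 + j)
    have s2 := O_lt_succ (i2 + j)
    rw [Nat.add_assoc] at s1 s2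
    apply le_antisymm
    · have h1 := h (O (i2 + (j + 1)) - P2) (by omega)
      have e2 : P2 + (O (i2 + (j + 1)) - P2) = O (i2 + (j + 1)) := by omega
      rw [e2, y_O] at h1
      obtain ⟨i', hi'⟩ := y_one.mp h1
      have h2 : i1 + j < i' := by
        apply O_strictMono.lt_iff_lt.mp
        omega
      have h3 := O_strictMono.monotone (show i1 + (j + 1) ≤ i' by omega)
      omega
    · have h1 := h (O (i1 + (j + 1)) - P1) (by omega)
      have e2 : P1 + (O (i1 + (j + 1)) - P1) = O (i1 + (j + 1)) := by omega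
      rw [e2, y_O] at h1
      obtain ⟨i', hi'⟩ := y_one.mp h1.symm
      have h2 : i2 + j < i' := by
        apply O_strictMono.lt_iff_lt.mp
        omega
      have h3 := O_strictMono.monotone (show i2 + (j + 1) ≤ i' by omega)
      omega

/-- synchronisation modulo `4` -/
theorem sync_four (i1 i2 : ℕ) (h : ∀ j < 8, g (i1 + j) = g (i2 + j)) : i1 % 4 = i2 % 4 := by
  by_contra hne
  have key : ∀ i1 i2 : ℕ, (∀ j < 8, g (i1 + j) = g (i2 + j)) → i1 % 2 ≠ i2 % 2 → False := by
    intro i1 i2 h hne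
    obtain ⟨j, hj, hj1⟩ : ∃ j < 4, (i1 + j) % 4 = 1 := ⟨(5 - i1 % 4) % 4, by omega, by omega⟩
    have h1 := h j (by omega)
    have h2 : g (i1 + j) = 2 := by
      have := g1 ((i1 + j) / 4)
      have e : 4 * ((i1 + j) / 4) + 1 = i1 + j := by omega
      rwa [e] at this
    have h3 : g (i2 + j) = 1 := g_even _ (by omega)
    omega
  by_cases hp : i1 % 2 = i2 % 2
  · obtain ⟨j, hj, hj1⟩ : ∃ j < 4, (i1 + j) % 4 = 1 := ⟨(5 - i1 % 4) % 4, by omega, by omega⟩
    have h1 := h j (by omega)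
    have h2 := h (j + 4) (by omega)
    have e1 : g (i1 + j) = 2 := by
      have := g1 ((i1 + j) / 4)
      have e : 4 * ((i1 + j) / 4) + 1 = i1 + j := by omega
      rwa [e] at this
    have e2 : g (i1 + (j + 4)) = 2 := by
      have := g1 ((i1 + (j + 4)) / 4)
      have e : 4 * ((i1 + (j + 4)) / 4) + 1 = i1 + (j + 4) := by omega
      rwa [e] at this
    have e3 : g (i2 + j) = g ((i2 + j) / 4) := by
      have := g3 ((i2 + j) / 4)
      have e : 4 * ((i2 + j) / 4) + 3 = i2 + j := by omega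
      rwa [e] at this
    have e4 : g (i2 + (j + 4)) = g ((i2 + j) / 4 + 1) := by
      have := g3 ((i2 + j) / 4 + 1)
      have e : 4 * ((i2 + j) / 4 + 1) + 3 = i2 + (j + 4) := by omega
      rwa [e] at this
    rcases Nat.mod_two_eq_zero_or_one ((i2 + j) / 4) with h5 | h5
    · have := g_even _ h5
      omega
    · have := g_even ((i2 + j) / 4 + 1) (by omega)
      omega
  · exact key i1 i2 h hp

/-- synchronisation modulo `4 ^ n` -/
theorem sync (n : ℕ) : ∀ i1 i2 : ℕ, (∀ j < 8 * 4 ^ n, g (i1 + j) = g (i2 + j)) →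
    i1 % 4 ^ n = i2 % 4 ^ n := by
  induction n with
  | zero => intro i1 i2 _; simp [Nat.mod_one]
  | succ n ih =>
    intro i1 i2 h
    have hpos : 0 < 4 ^ n := by positivity
    have h4 := sync_four i1 i2 fun j hj => h j (by rw [pow_succ]; omega)
    have h1 := ih (i1 / 4) (i2 / 4) (by
      intro j hj
      have h2 := h (3 - i1 % 4 + 4 * j) (by rw [pow_succ]; omega)
      have e1 : i1 + (3 - i1 % 4 + 4 * j) = 4 * (i1 / 4 + j) + 3 := by omega
      have e2 : i2 + (3 - i1 % 4 + 4 * j) = 4 * (i2 / 4 + j) + 3 := by omega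
      rw [e1, e2, g3, g3] at h2
      exact h2)
    have e : (4 : ℕ) ^ (n + 1) = 4 * 4 ^ n := by ring
    rw [e, Nat.mod_mul, Nat.mod_mul, h4, h1]

/-- The basic equation for equal windows. -/
theorem basic (P1 P2 l n : ℕ) (hl : 32 * 4 ^ n ≤ l) (h : ∀ j < l, y (P1 + j) = y (P2 + j)) :
    ∃ i1 i2, P1 ≤ O i1 ∧ O i1 ≤ P1 + 2 ∧ O i1 + P2 = O i2 + P1 ∧ i1 % 4 ^ n = i2 % 4 ^ n ∧
      3 * ((P2 : ℤ) - P1) = 7 * 4 ^ n * (((i2 / 4 ^ n : ℕ) : ℤ) - ((i1 / 4 ^ n : ℕ) : ℤ)) +
        (dl (i2 / 4 ^ n) - dl (i1 / 4 ^ n)) := by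
  have hpos : 0 < 4 ^ n := by positivity
  obtain ⟨i1, i2, a1, a2, b1, hO⟩ := window P1 P2 l (8 * 4 ^ n) (by omega) h
  have h0 := hO 0 (by omega)
  simp only [Nat.add_zero] at h0
  have hg : ∀ j < 8 * 4 ^ n, g (i1 + j) = g (i2 + j) := by
    intro j hj
    have h1 := hO j (by omega)
    have h2 := hO (j + 1) (by omega)
    have e1 : O (i1 + (j + 1)) = O (i1 + j) + 1 + g (i1 + j) := rfl
    have e2 : O (i2 + (j + 1)) = O (i2 + j) + 1 + g (i2 + j) := rfl
    omega
  have hs := sync n i1 i2 hg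
  refine ⟨i1, i2, a1, b1, h0, hs, ?_⟩
  have e1 := O_eq i1
  have e2 := O_eq i2
  have d1 : dl i1 = dl (i1 / 4 ^ n) + dl (i1 % 4 ^ n) := by
    rw [← dl_split n _ _ (Nat.mod_lt _ hpos), Nat.div_add_mod]
  have d2 : dl i2 = dl (i2 / 4 ^ n) + dl (i2 % 4 ^ n) := by
    rw [← dl_split n _ _ (Nat.mod_lt _ hpos), Nat.div_add_mod]
  have f1 : (i1 : ℤ) = 4 ^ n * ((i1 / 4 ^ n : ℕ) : ℤ) + ((i1 % 4 ^ n : ℕ) : ℤ) := by
    exact_mod_cast (Nat.div_add_mod i1 (4 ^ n)).symm
  have f2 : (i2 : ℤ) = 4 ^ n * ((i2 / 4 ^ n : ℕ) : ℤ) + ((i2 % 4 ^ n : ℕ) : ℤ) := by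
    exact_mod_cast (Nat.div_add_mod i2 (4 ^ n)).symm
  have h0' : (O i1 : ℤ) + P2 = O i2 + P1 := by exact_mod_cast h0
  rw [hs] at d1 f1
  rw [d1] at e1
  rw [d2] at e2
  rw [f1] at e1
  rw [f2] at e2
  linarith

end Q223.AD
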