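import Pool.Agent.Q223.AD.Core

set_option autoImplicit false

/-! The kernel of the sequence `y` is infinite for every base. -/

namespace Q223.AD

/-- the kernel -/
def kernel (K : ℕ) (a : ℕ → ℕ) : Set (ℕ → ℕ) :=
  {f | ∃ e j, j < K ^ e ∧ f = fun n => a (K ^ e * n + j)}

theorem y_mem (p : ℕ) : y p = 1 ∨ y p = 2 := by
  unfold y
  split_ifs
  · exact Or.inl rfl
  · exact Or.inr rfl

theorem same_blocks (K : ℕ) (hfin : (kernel K y).Finite) (ν : ℕ → ℕ) :
    ∃ i i', i < i' ∧ ∀ e j, j < K ^ e → y (K ^ e * ν i + j) = y (K ^ e * ν i' + j) := by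
  have h1 : ({s | s ⊆ kernel K y} : Set (Set (ℕ → ℕ))).Finite := hfin.finite_subsets
  have : Finite ({s | s ⊆ kernel K y} : Set (Set (ℕ → ℕ))) := h1
  let τ : ℕ → ({s | s ⊆ kernel K y} : Set (Set (ℕ → ℕ))) :=
    fun i => ⟨{f | f ∈ kernel K y ∧ f (ν i) = 1}, fun f hf => hf.1⟩
  obtain ⟨i, i', hne, h2⟩ := Finite.exists_ne_map_eq_of_infinite τ
  have key : ∀ i i', τ i = τ i' → ∀ e j, j < K ^ e →
      y (K ^ e * ν i + j) = y (K ^ e * ν i' + j) := by
    intro i i' h e j hj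
    have h3 : {f | f ∈ kernel K y ∧ f (ν i) = 1} = {f | f ∈ kernel K y ∧ f (ν i') = 1} :=
      congrArg Subtype.val h
    have hmem : (fun n => y (K ^ e * n + j)) ∈ kernel K y := ⟨e, j, hj, rfl⟩
    have h4 : y (K ^ e * ν i + j) = 1 ↔ y (K ^ e * ν i' + j) = 1 := by
      constructor
      · intro h5
        have : (fun n => y (K ^ e * n + j)) ∈ {f | f ∈ kernel K y ∧ f (ν i') = 1} := by
          rw [← h3]; exact ⟨hmem, h5⟩
        exact this.2
      · intro h5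
        have : (fun n => y (K ^ e * n + j)) ∈ {f | f ∈ kernel K y ∧ f (ν i) = 1} := by
          rw [h3]; exact ⟨hmem, h5⟩
        exact this.2
    rcases y_mem (K ^ e * ν i + j) with h5 | h5
    · rw [h5, h4.mp h5]
    · rcases y_mem (K ^ e * ν i' + j) with h6 | h6
      · rw [h4.mpr h6] at h5
        exact absurd h5 (by norm_num)
      · rw [h5, h6]
  rcases lt_or_gt_of_ne hne with h3 | h3
  · exact ⟨i, i', h3, key i i' h2⟩
  · exact ⟨i', i, h3, key i' i h2.symm⟩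

theorem dl_abs_pow (n : ℕ) : ∀ r < 4 ^ n, |dl r| ≤ n := by
  induction n with
  | zero =>
    intro r hr
    have : r = 0 := by simpa using hr
    subst this
    simp [dl_zero]
  | succ n ih =>
    intro r hr
    obtain ⟨k, d, hd, rfl⟩ : ∃ k d, d < 4 ∧ r = 4 * k + d := ⟨r / 4, r % 4, by omega, by omega⟩
    have h1 := abs_le.mp (ih k (by rw [pow_succ] at hr; omega))
    rw [dl_step k d hd, abs_le]
    have h2 : -(1 : ℤ) ≤ (if d = 1 then -1 else if d = 2 then 1 else 0) ∧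
        (if d = 1 then -1 else if d = 2 then 1 else 0) ≤ (1 : ℤ) := by
      split_ifs <;> constructor <;> norm_num
    have h3 := h2.1
    have h4 := h2.2
    push_cast
    constructor <;> linarith

/-- bound for the index of the block -/
theorem block_le {P i n : ℕ} (h : O i ≤ P + 2) (C : ℕ) (hP : P ≤ 4 ^ n * C) :
    i / 4 ^ n ≤ C + 2 := by
  have hpos : 0 < 4 ^ n := by positivity
  have h1 := le_O i
  have h2 : i ≤ 4 ^ n * (C + 2) := by nlinarith
  calc i / 4 ^ n ≤ 4 ^ n * (C + 2) / 4 ^ n := Nat.div_le_div_right h2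
    _ = C + 2 := Nat.mul_div_cancel_left _ hpos

/-! ### The case of a power of two -/

/-- the special numbers -/
def M : ℕ → ℕ
  | 0 => 0
  | t + 1 => 64 * M t + 14

theorem dl_small : dl 42 = 3 ∧ dl 41 = 1 ∧ dl 63 = 0 := by
  have h0 := dl_zero
  have a2 := dl_step 0 2 (by norm_num)
  have a10 := dl_step 2 2 (by norm_num)
  have a42 := dl_step 10 2 (by norm_num)
  have a41 := dl_step 10 1 (by norm_num)
  have a3 := dl_step 0 3 (by norm_num)
  have a15 := dl_step 3 3 (by norm_num)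
  have a63 := dl_step 15 3 (by norm_num)
  norm_num at a2 a10 a42 a41 a3 a15 a63
  refine ⟨?_, ?_, ?_⟩
  · rw [a42, a10, a2, h0]; norm_num
  · rw [a41, a10, a2, h0]; norm_num
  · rw [a63, a15, a3, h0]

theorem dl_three_M (t : ℕ) : dl (3 * M t) = 3 * t := by
  induction t with
  | zero => simp [M, dl_zero]
  | succ t ih =>
    have e : 3 * M (t + 1) = 4 ^ 3 * (3 * M t) + 42 := by simp only [M]; ring
    rw [e, dl_split 3 _ _ (by norm_num), ih, dl_small.1]
    push_cast; ring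

theorem dl_kappa (t : ℕ) : dl (192 * M t) = 3 * t := by
  have e : 192 * M t = 4 ^ 3 * (3 * M t) + 0 := by ring
  rw [e, dl_split 3 _ _ (by norm_num), dl_three_M, dl_zero, add_zero]

theorem dl_kappa' (t : ℕ) : dl (192 * M (t + 1) - 1) = 3 * t + 1 := by
  have e1 : 192 * M (t + 1) - 1 = 4 ^ 3 * (4 ^ 3 * (3 * M t) + 41) + 63 := by
    simp only [M]
    omega
  rw [e1, dl_split 3 _ _ (by norm_num), dl_split 3 _ _ (by norm_num), dl_three_M, dl_small.2.1,
    dl_small.2.2, add_zero]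

theorem block_index (n t P i : ℕ) (hP : P = 4 ^ n * (64 * (7 * M (t + 1)))) (h1 : P ≤ O i)
    (h2 : O i ≤ P + 2) (hn : 64 * (7 * M (t + 1)) + n + 8 < 4 ^ n) :
    dl (i / 4 ^ n) = 3 * t + 3 ∨ dl (i / 4 ^ n) = 3 * t + 1 := by
  have hpos : 0 < 4 ^ n := by positivity
  have hk := block_le h2 (64 * (7 * M (t + 1))) (by rw [hP])
  have hdl : |dl i| ≤ 64 * (7 * M (t + 1)) + 2 + n := by
    have e : dl i = dl (i / 4 ^ n) + dl (i % 4 ^ n) := by
      rw [← dl_split n _ _ (Nat.mod_lt _ hpos), Nat.div_add_mod]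
    have a1 := dl_abs (i / 4 ^ n)
    have a2 := dl_abs_pow n _ (Nat.mod_lt i hpos)
    have a3 : ((i / 4 ^ n : ℕ) : ℤ) ≤ ((64 * (7 * M (t + 1)) + 2 : ℕ) : ℤ) := by exact_mod_cast hk
    push_cast at a3
    rw [e]
    calc |dl (i / 4 ^ n) + dl (i % 4 ^ n)| ≤ |dl (i / 4 ^ n)| + |dl (i % 4 ^ n)| := abs_add_le _ _
      _ ≤ _ := by push_cast at a1; linarith
  have hdl' := abs_le.mp hdl
  have hO := O_eq i
  have hPz : (P : ℤ) = 4 ^ n * (64 * (7 * M (t + 1))) := by exact_mod_cast hP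
  have h1z : (P : ℤ) ≤ O i := by exact_mod_cast h1
  have h2z : (O i : ℤ) ≤ P + 2 := by exact_mod_cast h2
  have hnz : (64 * (7 * M (t + 1)) + n + 8 : ℤ) < 4 ^ n := by exact_mod_cast hn
  have hMpos : 1 ≤ M (t + 1) := by simp only [M]; omega
  -- `i` lies between `(κ - 1) 4^n` and `(κ + 1) 4^n`
  have hi1 : (4 : ℤ) ^ n * (192 * M (t + 1)) - 4 ^ n ≤ i := by
    nlinarith
  have hi2 : (i : ℤ) < 4 ^ n * (192 * M (t + 1)) + 4 ^ n := by
    nlinarith
  have hi1' : 4 ^ n * (192 * M (t + 1) - 1) ≤ i := by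
    have : ((4 ^ n * (192 * M (t + 1) - 1) : ℕ) : ℤ) ≤ i := by
      rw [Nat.cast_mul, Nat.cast_sub (by omega)]
      push_cast
      linarith
    exact_mod_cast this
  have hi2' : i < 4 ^ n * (192 * M (t + 1) + 1) := by
    have : (i : ℤ) < ((4 ^ n * (192 * M (t + 1) + 1) : ℕ) : ℤ) := by
      push_cast
      linarith
    exact_mod_cast this
  have hb1 : 192 * M (t + 1) - 1 ≤ i / 4 ^ n := by
    rw [Nat.le_div_iff_mul_le hpos, mul_comm]
    exact hi1'
  have hb2 : i / 4 ^ n < 192 * M (t + 1) + 1 := by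
    rw [Nat.div_lt_iff_lt_mul hpos, mul_comm]
    exact hi2'
  rcases Nat.lt_or_ge (i / 4 ^ n) (192 * M (t + 1)) with h3 | h3
  · right
    have : i / 4 ^ n = 192 * M (t + 1) - 1 := by omega
    rw [this, dl_kappa']
  · left
    have : i / 4 ^ n = 192 * M (t + 1) := by omega
    rw [this, dl_kappa]
    push_cast; ring

theorem pow_two_case (v : ℕ) (hv : 1 ≤ v) : ¬ (kernel (2 ^ v) y).Finite := by
  intro hfin
  obtain ⟨t, t', htt, h⟩ := same_blocks (2 ^ v) hfin (fun t => 7 * M (t + 1))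
  set N1 := 7 * M (t + 1) with hN1
  set N2 := 7 * M (t' + 1) with hN2
  -- a large exponent
  obtain ⟨m, hm⟩ : ∃ m, 64 * (N1 + N2) + m + 8 < m * 2 ∧ 3 ≤ m :=
    ⟨64 * (N1 + N2) + 12, by omega, by omega⟩
  set n := v * m - 3 with hn
  have hvm : m ≤ v * m := by nlinarith
  have hn3 : n + 3 = v * m := by omega
  have hbig : 64 * (N1 + N2) + n + 8 < 4 ^ n := by
    have h1 : n < 2 ^ n := Nat.lt_two_pow_self
    have h2 : (4 : ℕ) ^ n = 2 ^ n * 2 ^ n := by rw [← mul_pow]; norm_num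
    have h3 : 64 * (N1 + N2) + 8 ≤ n + 3 := by omega
    have h4 : 4 ≤ 2 ^ n := by
      have : 2 ≤ n := by omega
      calc 4 = 2 ^ 2 := by norm_num
        _ ≤ 2 ^ n := Nat.pow_le_pow_right (by norm_num) this
    rw [h2]
    nlinarith
  have hK : (2 ^ v) ^ (2 * m) = 4 ^ n * 64 := by
    rw [← pow_mul]
    have : v * (2 * m) = 2 * (n + 3) := by rw [hn3]; ring
    rw [this, pow_mul, pow_add]
    norm_num
  obtain ⟨i1, i2, a1, a2, a3, a4, a5⟩ := basic ((2 ^ v) ^ (2 * m) * N1) ((2 ^ v) ^ (2 * m) * N2)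
    ((2 ^ v) ^ (2 * m)) n (by rw [hK]; omega) (fun j hj => h (2 * m) j hj)
  have hP1 : (2 ^ v) ^ (2 * m) * N1 = 4 ^ n * (64 * N1) := by rw [hK]; ring
  have hP2 : (2 ^ v) ^ (2 * m) * N2 = 4 ^ n * (64 * N2) := by rw [hK]; ring
  rw [hP1] at a1 a2 a3 a5
  rw [hP2] at a3 a5
  have b1 := block_index n t (4 ^ n * (64 * N1)) i1 rfl a1 a2 (by omega)
  have a6 : 4 ^ n * (64 * N2) ≤ O i2 := by omega
  have a7 : O i2 ≤ 4 ^ n * (64 * N2) + 2 := by omega
  have b2 := block_index n t' (4 ^ n * (64 * N2)) i2 rfl a6 a7 (by omega)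
  -- the discrepancies agree
  have c1 := dl_abs (i1 / 4 ^ n)
  have c2 := dl_abs (i2 / 4 ^ n)
  have k1 := block_le a2 (64 * N1) le_rfl
  have k2 : i2 / 4 ^ n ≤ 64 * N2 + 2 := block_le (P := 4 ^ n * (64 * N2)) (by omega) _ le_rfl
  have hdvd : (4 : ℤ) ^ n ∣ dl (i2 / 4 ^ n) - dl (i1 / 4 ^ n) := by
    refine ⟨3 * (64 * N2 - 64 * N1) -
      7 * (((i2 / 4 ^ n : ℕ) : ℤ) - ((i1 / 4 ^ n : ℕ) : ℤ)), ?_⟩
    push_cast at a5 ⊢
    linarith
  have hsmall : |dl (i2 / 4 ^ n) - dl (i1 / 4 ^ n)| < 4 ^ n := by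
    have k1' : ((i1 / 4 ^ n : ℕ) : ℤ) ≤ 64 * N1 + 2 := by exact_mod_cast k1
    have k2' : ((i2 / 4 ^ n : ℕ) : ℤ) ≤ 64 * N2 + 2 := by exact_mod_cast k2
    have hbig' : (64 * (N1 + N2) + n + 8 : ℤ) < 4 ^ n := by exact_mod_cast hbig
    have c1' := abs_le.mp c1
    have c2' := abs_le.mp c2
    rw [abs_lt]
    constructor <;> linarith [c1'.1, c1'.2, c2'.1, c2'.2]
  have hzero := Int.eq_zero_of_abs_lt_dvd hdvd hsmall
  omega

/-! ### The other case -/

theorem not_pow_two_case (K v u : ℕ) (hK : K = 2 ^ v * u) (hu : Odd u) (hu3 : 3 ≤ u) :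
    ¬ (kernel K y).Finite := by
  intro hfin
  have hK3 : 3 ≤ K := by
    rw [hK]
    have : 1 ≤ 2 ^ v := Nat.one_le_two_pow
    nlinarith
  obtain ⟨N1, N2, h12, h⟩ := same_blocks K hfin id
  simp only [id] at h
  -- bound for the discrepancies
  set B : ℕ := 256 * (N1 + N2) + 4 with hB
  -- the levels
  let n : ℕ → ℕ := fun e => Nat.log 4 (K ^ e) - 3
  have hlev : ∀ e, 4 ≤ e → 64 * 4 ^ n e ≤ K ^ e ∧ K ^ e < 256 * 4 ^ n e := by
    intro e he
    have hK0 : K ^ e ≠ 0 := by positivity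
    have h1 : 4 ^ 3 ≤ K ^ e := by
      calc 4 ^ 3 ≤ 3 ^ 4 := by norm_num
        _ ≤ K ^ 4 := Nat.pow_le_pow_left hK3 4
        _ ≤ K ^ e := Nat.pow_le_pow_right (by omega) he
    have h2 : 3 ≤ Nat.log 4 (K ^ e) := Nat.le_log_of_pow_le (by norm_num) h1
    have h3 := Nat.pow_log_le_self 4 hK0
    have h4 := Nat.lt_pow_succ_log_self (b := 4) (by norm_num) (K ^ e)
    obtain ⟨a, ha⟩ : ∃ a, Nat.log 4 (K ^ e) = a + 3 := ⟨Nat.log 4 (K ^ e) - 3, by omega⟩
    have hna : n e = a := by simp only [n, ha]; omega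
    rw [ha] at h3 h4
    rw [hna]
    have e1 : (4 : ℕ) ^ (a + 3) = 64 * 4 ^ a := by rw [pow_add]; ring
    have e2 : (4 : ℕ) ^ (a + 3).succ = 256 * 4 ^ a := by rw [pow_succ, pow_add]; ring
    rw [e1] at h3
    rw [e2] at h4
    exact ⟨h3, h4⟩
  have hmono : ∀ e, n e ≤ n (e + 1) := by
    intro e
    have : Nat.log 4 (K ^ e) ≤ Nat.log 4 (K ^ (e + 1)) :=
      Nat.log_mono_right (Nat.pow_le_pow_right (by omega) (Nat.le_succ e))
    simp only [n]
    omega
  have hE : ∀ e, ∃ E : ℤ, 4 ≤ e → |E| ≤ B ∧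
      (4 : ℤ) ^ n e ∣ 3 * (K : ℤ) ^ e * ((N2 : ℤ) - N1) - E := by
    intro e
    by_cases he : 4 ≤ e
    · obtain ⟨l1, l2⟩ := hlev e he
      obtain ⟨i1, i2, a1, a2, a3, a4, a5⟩ := basic (K ^ e * N1) (K ^ e * N2) (K ^ e) (n e)
        (by omega) (fun j hj => h e j hj)
      refine ⟨dl (i2 / 4 ^ n e) - dl (i1 / 4 ^ n e), fun _ => ⟨?_, ?_⟩⟩
      · have k1 := block_le a2 (256 * N1) (by nlinarith)
        have k2 : i2 / 4 ^ n e ≤ 256 * N2 + 2 :=
          block_le (P := K ^ e * N2) (by omega) _ (by nlinarith)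
        have k1' : ((i1 / 4 ^ n e : ℕ) : ℤ) ≤ 256 * N1 + 2 := by exact_mod_cast k1
        have k2' : ((i2 / 4 ^ n e : ℕ) : ℤ) ≤ 256 * N2 + 2 := by exact_mod_cast k2
        have c1' := abs_le.mp (dl_abs (i1 / 4 ^ n e))
        have c2' := abs_le.mp (dl_abs (i2 / 4 ^ n e))
        rw [hB, abs_le]
        push_cast
        constructor <;> linarith [c1'.1, c1'.2, c2'.1, c2'.2]
      · refine ⟨7 * (((i2 / 4 ^ n e : ℕ) : ℤ) - ((i1 / 4 ^ n e : ℕ) : ℤ)), ?_⟩
        push_cast at a5 ⊢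
        linarith
    · exact ⟨0, fun h => absurd h he⟩
  choose E hE using hE
  have hlarge : ∀ e, 256 * ((K + 1) * (B + 1)) + 4 ≤ e → (K + 1) * (B + 1) < 4 ^ n e := by
    intro e he
    obtain ⟨_, l2⟩ := hlev e (by omega)
    have h1 : e < K ^ e := Nat.lt_pow_self (by omega)
    omega
  set e1 := 256 * ((K + 1) * (B + 1)) + 4 with he1
  have hrec : ∀ e, e1 ≤ e → E (e + 1) = K * E e := by
    intro e he
    obtain ⟨b1, d1⟩ := hE e (by omega)
    obtain ⟨b2, d2⟩ := hE (e + 1) (by omega)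
    have d2' : (4 : ℤ) ^ n e ∣ 3 * (K : ℤ) ^ (e + 1) * ((N2 : ℤ) - N1) - E (e + 1) :=
      (pow_dvd_pow _ (hmono e)).trans d2
    have d3 : (4 : ℤ) ^ n e ∣ E (e + 1) - K * E e := by
      have h1 := (d1.mul_left (K : ℤ)).sub d2'
      have h2 : (K : ℤ) * (3 * (K : ℤ) ^ e * ((N2 : ℤ) - N1) - E e) -
          (3 * (K : ℤ) ^ (e + 1) * ((N2 : ℤ) - N1) - E (e + 1)) = E (e + 1) - K * E e := by ring
      rwa [h2] at h1
    have hl := hlarge e he
    have hl' : ((K : ℤ) + 1) * (B + 1) < 4 ^ n e := by exact_mod_cast hl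
    have hsmall : |E (e + 1) - K * E e| < 4 ^ n e := by
      calc |E (e + 1) - K * E e| ≤ |E (e + 1)| + |(K : ℤ) * E e| := abs_sub _ _
        _ = |E (e + 1)| + K * |E e| := by rw [abs_mul, Nat.abs_cast]
        _ ≤ B + K * B := by
          have : (K : ℤ) * |E e| ≤ K * B := mul_le_mul_of_nonneg_left b1 (by positivity)
          linarith
        _ < 4 ^ n e := by nlinarith
    have := Int.eq_zero_of_abs_lt_dvd d3 hsmall
    linarith
  have hzero : ∀ e, e1 ≤ e → E e = 0 := by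
    intro e he
    by_contra hne
    have hpow : ∀ j, E (e + j) = K ^ j * E e := by
      intro j
      induction j with
      | zero => simp
      | succ j ih =>
        rw [← Nat.add_assoc, hrec (e + j) (by omega), ih]
        ring
    obtain ⟨b1, _⟩ := hE (e + B) (by omega)
    rw [hpow, abs_mul, abs_pow, Nat.abs_cast] at b1
    have h1 : 1 ≤ |E e| := Int.one_le_abs hne
    have h2 : B < K ^ B := Nat.lt_pow_self (by omega)
    have h2' : (B : ℤ) < (K : ℤ) ^ B := by exact_mod_cast h2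
    nlinarith
  have hDpos : 1 ≤ N2 - N1 := by omega
  have hfinal : ∀ e, e1 ≤ e → u ^ e < 256 * (N2 - N1) := by
    intro e he
    obtain ⟨_, d1⟩ := hE e (by omega)
    rw [hzero e he, sub_zero] at d1
    have d2 : 4 ^ n e ∣ 3 * K ^ e * (N2 - N1) := by
      have : ((4 ^ n e : ℕ) : ℤ) ∣ ((3 * K ^ e * (N2 - N1) : ℕ) : ℤ) := by
        push_cast [Nat.cast_sub h12.le]
        exact d1
      exact_mod_cast this
    have e2 : 3 * K ^ e * (N2 - N1) = (3 * u ^ e) * (2 ^ (v * e) * (N2 - N1)) := by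
      rw [hK, mul_pow, ← pow_mul]; ring
    rw [e2] at d2
    have hodd : Odd (3 * u ^ e) := Odd.mul (by decide) hu.pow
    have hcop : Nat.Coprime (4 ^ n e) (3 * u ^ e) := by
      have h1 : Nat.Coprime 4 (3 * u ^ e) := by
        have : Nat.Coprime 2 (3 * u ^ e) := (Nat.coprime_two_left).mpr hodd
        have h2 : (4 : ℕ) = 2 ^ 2 := by norm_num
        rw [h2]
        exact Nat.Coprime.pow_left 2 this
      exact Nat.Coprime.pow_left _ h1
    have d3 := hcop.dvd_of_dvd_mul_left d2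
    have h3 : 0 < 2 ^ (v * e) * (N2 - N1) := Nat.mul_pos (by positivity) (by omega)
    have h4 := Nat.le_of_dvd h3 d3
    obtain ⟨_, l2⟩ := hlev e (by omega)
    have e3 : K ^ e = 2 ^ (v * e) * u ^ e := by rw [hK, mul_pow, ← pow_mul]
    rw [e3] at l2
    have h5 : 2 ^ (v * e) * u ^ e < 2 ^ (v * e) * (256 * (N2 - N1)) := by
      calc 2 ^ (v * e) * u ^ e < 256 * 4 ^ n e := l2
        _ ≤ 256 * (2 ^ (v * e) * (N2 - N1)) := Nat.mul_le_mul_left _ h4
        _ = _ := by ring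
    exact Nat.lt_of_mul_lt_mul_left h5
  have h1 := hfinal (e1 + 256 * (N2 - N1)) (by omega)
  have h2 : e1 + 256 * (N2 - N1) < u ^ (e1 + 256 * (N2 - N1)) := Nat.lt_pow_self (by omega)
  omega

theorem infinite_kernel (K : ℕ) (hK : 2 ≤ K) : ¬ (kernel K y).Finite := by
  obtain ⟨v, u, hu, rfl⟩ := Nat.exists_eq_two_pow_mul_odd (n := K) (by omega)
  rcases Nat.lt_or_ge u 3 with h | h
  · have hu1 : u = 1 := by
      obtain ⟨w, hw⟩ := hu
      omega
    subst hu1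
    rw [mul_one] at hK ⊢
    refine pow_two_case v ?_
    rcases Nat.eq_zero_or_pos v with h0 | h0
    · rw [h0] at hK; norm_num at hK
    · exact h0
  · exact not_pow_two_case _ v u rfl hu h

end Q223.AD
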